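import Pool.Agent.Q91.SL.BSH
import Pool.Agent.Q119.SL.Lin

/-!
# Project SL2 (helper167), job SL-BDUAL (helper91): dual size of the test function
-/

set_option autoImplicit false

open MeasureTheory Filter Topology

namespace Pool.Agent.Q91.SL

open Pool.Agent.Q167.SL
open Pool.Agent.TH41.BL (Kf)
open Pool.Agent.TH41.KL (PD cosA)
open Pool.Agent.Q119.SL (meas_g bdd_g kr int_kr pr_eq one_nonneg meas_shell)

/-- Fubini for the pairing -/
theorem pr_fubini {n : ℕ} {r : ℝ} {g : ℝ → ℝ} (hg : ContinuousOn g (Set.Icc (-1) 1)) {N : ℕ} {M : ℝ}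
    {q k : ℝ → ℂ} (hq : Continuous q) (hqM : ∀ v, ‖q v‖ ≤ M) (hk : Continuous k) (hki : Integrable k) :
    pr n r g (fun τ => (∫ v : ℝ, Complex.exp (N * q v * τ) * k v) / (2 * Real.pi)) =
      (∫ v : ℝ, k v * pr n r g (fun τ => Complex.exp (N * q v * τ))) / (2 * Real.pi) := by
  obtain ⟨K, hK0, hK⟩ := bdd_g hg
  have hM0 : 0 ≤ M := (norm_nonneg _).trans (hqM 0)
  obtain ⟨μ, hμ⟩ : ∃ μ : Measure (EuclideanSpace ℝ (Fin n) × EuclideanSpace ℝ (Fin n)),
    μ = (volume.restrict (shell n r)).prod (volume.restrict (shell n r)) := ⟨_, rfl⟩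
  have hfin : IsFiniteMeasure μ := by rw [hμ]; infer_instance
  obtain ⟨H, hH⟩ : ∃ H : (EuclideanSpace ℝ (Fin n) × EuclideanSpace ℝ (Fin n)) → ℝ → ℂ, H = fun z v =>
    ((g (cosA z.1 z.2) : ℝ) : ℂ) * (Complex.exp (N * q v * ((inner ℝ z.1 z.2 : ℝ) : ℂ)) * k v) := ⟨_, rfl⟩
  have hmeas : Measurable (Function.uncurry H) := by
    rw [hH]
    refine (Complex.measurable_ofReal.comp ((meas_g hg).comp measurable_fst)).mul ?_
    refine Continuous.measurable ?_
    have h1 : Continuous fun a : (EuclideanSpace ℝ (Fin n) × EuclideanSpace ℝ (Fin n)) × ℝ =>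
        ((inner ℝ a.1.1 a.1.2 : ℝ) : ℂ) :=
      Complex.continuous_ofReal.comp ((continuous_fst.comp continuous_fst).inner
        (continuous_snd.comp continuous_fst))
    exact (((continuous_const.mul (hq.comp continuous_snd)).mul h1).cexp).mul (hk.comp continuous_snd)
  have hms : MeasurableSet (shell n r ×ˢ shell n r) := (meas_shell n r).prod (meas_shell n r)
  have hbound : ∀ᵐ a ∂(μ.prod volume), ‖Function.uncurry H a‖ ≤ (K * Real.exp (N * M)) * ‖k a.2‖ := by
    have h1 : ∀ᵐ z ∂μ, z ∈ shell n r ×ˢ shell n r := by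
      rw [hμ, Measure.prod_restrict]
      exact ae_restrict_mem hms
    have h2 : ∀ᵐ a ∂(μ.prod (volume : Measure ℝ)), a.1 ∈ shell n r ×ˢ shell n r :=
      Measure.quasiMeasurePreserving_fst.ae h1
    filter_upwards [h2] with a ha
    have h3 : |inner ℝ a.1.1 a.1.2| ≤ 1 := by
      refine (abs_real_inner_le_norm _ _).trans ?_
      have h4 : ‖a.1.1‖ < 1 := ha.1.2
      have h5 : ‖a.1.2‖ < 1 := ha.2.2
      nlinarith [norm_nonneg a.1.1, norm_nonneg a.1.2]
    rw [hH]
    simp only [Function.uncurry]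
    rw [norm_mul, norm_mul, Complex.norm_real, Real.norm_eq_abs, mul_assoc K]
    refine mul_le_mul (hK n _ _) ?_ (by positivity) hK0
    refine mul_le_mul_of_nonneg_right ?_ (norm_nonneg _)
    rw [Complex.norm_exp, Real.exp_le_exp]
    refine (Complex.re_le_norm _).trans ?_
    rw [norm_mul, norm_mul, Complex.norm_natCast, Complex.norm_real, Real.norm_eq_abs]
    calc (N : ℝ) * ‖q a.2‖ * |inner ℝ a.1.1 a.1.2| ≤ (N * M) * 1 :=
          mul_le_mul (mul_le_mul_of_nonneg_left (hqM _) (Nat.cast_nonneg N)) h3 (abs_nonneg _)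
            (by positivity)
      _ = _ := mul_one _
  have hkn : Integrable (fun a : (EuclideanSpace ℝ (Fin n) × EuclideanSpace ℝ (Fin n)) × ℝ =>
      (K * Real.exp (N * M)) * ‖k a.2‖) (μ.prod volume) := by
    have h1 := (integrable_const (μ := μ) (K * Real.exp (N * M))).mul_prod hki.norm
    exact h1
  have hint : Integrable (Function.uncurry H) (μ.prod volume) :=
    hkn.mono' hmeas.aestronglyMeasurable hbound
  have hswap := integral_integral_swap hint
  -- left side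
  have hL : pr n r g (fun τ => (∫ v : ℝ, Complex.exp (N * q v * τ) * k v) / (2 * Real.pi)) =
      (∫ z, ∫ v, H z v ∂volume ∂μ) / (2 * Real.pi) := by
    have h1 : Integrable (fun z => ∫ v, H z v ∂volume) μ := hint.integral_prod_left
    rw [hμ] at h1
    rw [hμ, integral_prod _ h1]
    unfold pr
    rw [← integral_div]
    congr 1
    funext x
    rw [← integral_div]
    congr 1
    funext y
    rw [hH]
    simp only
    rw [integral_const_mul]
    ring
  have hR : ∀ v, ∫ z, H z v ∂μ = k v * pr n r g (fun τ => Complex.exp (N * q v * τ)) := by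
    intro v
    have hc : Continuous fun τ : ℝ => Complex.exp (N * q v * τ) := by fun_prop
    rw [pr_eq hg hc, ← hμ, ← integral_const_mul]
    congr 1
    funext z
    rw [hH]
    simp only [kr]
    ring
  rw [hL, hswap]
  congr 1
  refine integral_congr_ae (Eventually.of_forall fun v => ?_)
  exact hR v

theorem bdual : S_bdual := by
  intro hexpk hbsh η R σ P t h ε ε₀ r hε hε₀ hr hr1
  obtain ⟨δ₀, hδ₀, hδη, hdual⟩ := h.dual (ε₀ / 4) (by positivity)
  obtain ⟨n₁, hn₁⟩ := hexpk r (ε₀ / 4) hr hr1 (by positivity)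
  have hη := h.eta_pos
  obtain ⟨δ, hδ⟩ : ∃ δ : ℝ, δ = min δ₀ (η / 2) := ⟨_, rfl⟩
  have hδ0 : 0 < δ := by rw [hδ]; exact lt_min hδ₀ (by linarith)
  have hδ1 : δ ≤ δ₀ := by rw [hδ]; exact min_le_left _ _
  have hδ2 : δ ≤ η / 2 := by rw [hδ]; exact min_le_right _ _
  obtain ⟨B, hB⟩ : ∃ B : ℝ, B = η - δ := ⟨_, rfl⟩
  have hB0 : 0 < B := by linarith
  have hBη : B < η := by linarith
  have hB2 : η / 2 ≤ B := by linarith
  have hdu : ∀ v : ℝ, σ (B + v * Complex.I) ≠ 0 ∧
      |(σ (B + v * Complex.I)).re| + (P (B + v * Complex.I)).re -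
        1 / 2 * Real.log ‖σ (B + v * Complex.I)‖ ≤ 1 / 2 - R + ε₀ / 4 := by
    intro v
    rw [hB]
    exact hdual δ hδ0 hδ1 v
  obtain ⟨M, hM⟩ := h.bd B hB0 hBη
  obtain ⟨C₀, hC₀⟩ : ∃ C₀ : ℝ, C₀ = 1 / (2 * Real.pi) * (2 / η) * √(Real.pi / ε) := ⟨_, rfl⟩
  have hC₀0 : 0 ≤ C₀ := by rw [hC₀]; positivity
  obtain ⟨n₂, hn₂⟩ := exists_nat_gt (C₀ / (ε₀ / 4))
  refine ⟨max n₁ (max n₂ 1), fun n hn κ φ c hc hcη => ?_⟩
  have hnn₁ : n₁ ≤ n := (le_max_left _ _).trans hn
  have hnn₂ : n₂ ≤ n := (le_max_left _ _).trans ((le_max_right _ _).trans hn)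
  have hn1 : 1 ≤ n := (le_max_right _ _).trans ((le_max_right _ _).trans hn)
  have hn0 : 0 < n := hn1
  have hnr : (1 : ℝ) ≤ n := by exact_mod_cast hn1
  have hnr0 : (0 : ℝ) < n := by linarith
  intro g hg hpd
  -- the line
  obtain ⟨q, hq⟩ : ∃ q : ℝ → ℂ, q = fun v : ℝ => σ (B + v * Complex.I) := ⟨_, rfl⟩
  obtain ⟨k, hk⟩ : ∃ k : ℝ → ℂ, k = fun v : ℝ => Complex.exp (n * P (B + v * Complex.I)) *
    Kf n ε κ (B + (v - φ) * Complex.I) := ⟨_, rfl⟩
  have hre : ∀ v : ℝ, |((B : ℂ) + v * Complex.I).re| < η := by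
    intro v
    simp only [Complex.add_re, Complex.ofReal_re, Complex.mul_re, Complex.I_re, mul_zero,
      Complex.ofReal_im, Complex.I_im, mul_one, sub_self, add_zero]
    rw [abs_of_pos hB0]
    exact hBη
  have hline : Continuous fun v : ℝ => (B : ℂ) + v * Complex.I := by fun_prop
  have hqc : Continuous q := by
    rw [hq, continuous_iff_continuousAt]
    intro v
    exact ContinuousAt.comp (g := σ) (h.ds _ (hre v)).continuousAt hline.continuousAt
  have hPc : Continuous fun v : ℝ => P (B + v * Complex.I) := by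
    rw [continuous_iff_continuousAt]
    intro v
    exact ContinuousAt.comp (g := P) (h.dP _ (hre v)).continuousAt hline.continuousAt
  have hqM : ∀ v, ‖q v‖ ≤ M := by
    intro v
    rw [hq]
    refine (hM _ ?_).1
    simp only [Complex.add_re, Complex.ofReal_re, Complex.mul_re, Complex.I_re, mul_zero,
      Complex.ofReal_im, Complex.I_im, mul_one, sub_self, add_zero]
    rw [abs_of_pos hB0]
  have hKc : Continuous fun v : ℝ => Kf n ε κ (B + (v - φ) * Complex.I) := by
    unfold Kf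
    refine Continuous.div (by fun_prop) (by fun_prop) fun v h5 => ?_
    have := congrArg Complex.re h5
    simp at this
    linarith
  have hkc : Continuous k := by
    rw [hk]
    exact ((continuous_const.mul hPc).cexp).mul hKc
  have hki : Integrable k := by
    have h1 := (hbsh η R σ P t h n ε κ φ 0 hn0 hε).1 B hB0 hBη
    refine h1.congr (Eventually.of_forall fun v => ?_)
    rw [hk]
    simp
  have htf : tf σ P n ε κ c φ = fun τ : ℝ => (∫ v : ℝ, Complex.exp (n * q v * τ) * k v) / (2 * Real.pi) := by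
    funext τ
    rw [(hbsh η R σ P t h n ε κ φ τ hn0 hε).2 c B hc hcη hB0 hBη]
    unfold tf
    congr 1
    refine integral_congr_ae (Eventually.of_forall fun v => ?_)
    rw [hk, hq]
    simp only
    rw [← mul_assoc, ← Complex.exp_add]
    congr 2
    ring
  rw [htf, pr_fubini hg hqc hqM hkc hki, norm_div]
  have hg1 : 0 ≤ g 1 := by
    rcases Nat.eq_zero_or_pos n with h0 | h0
    · omega
    · exact one_nonneg h0 hpd
  obtain ⟨G, hG⟩ : ∃ G : ℝ, G = g 1 * vs n r ^ 2 := ⟨_, rfl⟩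
  have hG0 : 0 ≤ G := by rw [hG]; positivity
  obtain ⟨E, hE⟩ : ∃ E : ℝ, E = Real.exp (n * (-R + ε₀ / 2)) *
    (Real.exp (n * ε * η ^ 2 + n * |κ| * η) * (2 / η)) * G := ⟨_, rfl⟩
  have hpt : ∀ v : ℝ, ‖k v * pr n r g (fun τ => Complex.exp (n * q v * τ))‖ ≤
      E * Real.exp (-(n * ε) * (v - φ) ^ 2) := by
    intro v
    rw [norm_mul]
    have h1 := hn₁ n hnn₁ (q v) (by rw [hq]; exact (hdu v).1) g hg hpd
    have h2 : ‖k v‖ ≤ Real.exp (n * (P (B + v * Complex.I)).re) *
        (Real.exp (n * ε * η ^ 2 + n * |κ| * η) * (2 / η) * Real.exp (-(n * ε) * (v - φ) ^ 2)) := by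
      rw [hk]
      simp only
      rw [norm_mul]
      refine mul_le_mul (le_of_eq ?_) ?_ (norm_nonneg _) (Real.exp_pos _).le
      · rw [Complex.norm_exp]
        congr 1
        simp
      · have h3 := kf_norm n ε κ (v - φ) hB0
        push_cast at h3
        refine h3.trans ?_
        refine mul_le_mul_of_nonneg_right ?_ (Real.exp_pos _).le
        rw [div_eq_mul_inv]
        refine mul_le_mul ?_ ?_ (by positivity) (Real.exp_pos _).le
        · rw [Real.exp_le_exp]
          have h6 : B ^ 2 ≤ η ^ 2 := pow_le_pow_left₀ hB0.le hBη.le 2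
          have h7 : 0 ≤ (n : ℝ) * ε := by positivity
          have h8 : 0 ≤ (n : ℝ) * |κ| := by positivity
          nlinarith [mul_le_mul_of_nonneg_left h6 h7, mul_le_mul_of_nonneg_left hBη.le h8]
        · rw [show (2 : ℝ) / η = (η / 2)⁻¹ by rw [inv_div]]
          exact inv_anti₀ (by linarith) hB2
    have h3 : Real.exp (n * (P (B + v * Complex.I)).re) *
        Real.exp (n * (|(q v).re| - 1 / 2 * Real.log ‖q v‖ - 1 / 2 + ε₀ / 4)) ≤
        Real.exp (n * (-R + ε₀ / 2)) := by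
      rw [← Real.exp_add, Real.exp_le_exp, ← mul_add]
      refine mul_le_mul_of_nonneg_left ?_ hnr0.le
      have h4 := (hdu v).2
      rw [hq]
      simp only
      linarith
    calc ‖k v‖ * ‖pr n r g (fun τ => Complex.exp (n * q v * τ))‖ ≤
          (Real.exp (n * (P (B + v * Complex.I)).re) *
            (Real.exp (n * ε * η ^ 2 + n * |κ| * η) * (2 / η) * Real.exp (-(n * ε) * (v - φ) ^ 2))) *
          (Real.exp (n * (|(q v).re| - 1 / 2 * Real.log ‖q v‖ - 1 / 2 + ε₀ / 4)) * g 1 * vs n r ^ 2) :=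
          mul_le_mul h2 h1 (norm_nonneg _) (by positivity)
      _ = (Real.exp (n * (P (B + v * Complex.I)).re) *
            Real.exp (n * (|(q v).re| - 1 / 2 * Real.log ‖q v‖ - 1 / 2 + ε₀ / 4))) *
          ((Real.exp (n * ε * η ^ 2 + n * |κ| * η) * (2 / η)) * G *
            Real.exp (-(n * ε) * (v - φ) ^ 2)) := by rw [hG]; ring
      _ ≤ Real.exp (n * (-R + ε₀ / 2)) *
          ((Real.exp (n * ε * η ^ 2 + n * |κ| * η) * (2 / η)) * G *
            Real.exp (-(n * ε) * (v - φ) ^ 2)) := mul_le_mul_of_nonneg_right h3 (by positivity)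
      _ = _ := by rw [hE]; ring
  have hne : 0 < (n : ℝ) * ε := by positivity
  have hgi : Integrable (fun v : ℝ => E * Real.exp (-(n * ε) * (v - φ) ^ 2)) :=
    ((integrable_exp_neg_mul_sq hne).comp_sub_right φ).const_mul E
  have h1 := norm_integral_le_of_norm_le hgi (Eventually.of_forall hpt)
  have h2 : ∫ v : ℝ, E * Real.exp (-(n * ε) * (v - φ) ^ 2) = E * √(Real.pi / (n * ε)) := by
    rw [integral_const_mul, integral_sub_right_eq_self (fun v : ℝ => Real.exp (-(n * ε) * v ^ 2)) φ,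
      integral_gaussian]
  rw [h2] at h1
  have hE0 : 0 ≤ E := by rw [hE]; positivity
  have h3 : √(Real.pi / (n * ε)) ≤ √(Real.pi / ε) := by
    refine Real.sqrt_le_sqrt ?_
    refine div_le_div_of_nonneg_left Real.pi_pos.le hε ?_
    nlinarith
  have h4 : C₀ ≤ Real.exp (n * (ε₀ / 4)) := by
    have h5 : C₀ ≤ n * (ε₀ / 4) := by
      have h6 : C₀ / (ε₀ / 4) ≤ n := hn₂.le.trans (by exact_mod_cast hnn₂)
      rwa [div_le_iff₀ (by positivity)] at h6
    have := Real.add_one_le_exp ((n : ℝ) * (ε₀ / 4))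
    linarith
  have h5 : ‖(2 * Real.pi : ℂ)‖ = 2 * Real.pi := by
    rw [norm_mul, Complex.norm_real, Real.norm_eq_abs, abs_of_pos Real.pi_pos]
    simp
  rw [h5, div_le_iff₀ (by positivity)]
  calc _ ≤ E * √(Real.pi / (n * ε)) := h1
    _ ≤ E * √(Real.pi / ε) := mul_le_mul_of_nonneg_left h3 hE0
    _ = (Real.exp (n * (-R + ε₀ / 2)) * Real.exp (n * ε * η ^ 2 + n * |κ| * η) * G) * C₀ *
        (2 * Real.pi) := by
        rw [hE, hC₀]
        field_simp
    _ ≤ (Real.exp (n * (-R + ε₀ / 2)) * Real.exp (n * ε * η ^ 2 + n * |κ| * η) * G) *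
        Real.exp (n * (ε₀ / 4)) * (2 * Real.pi) := by gcongr
    _ = Real.exp (n * (-R + ε₀ / 2) + (n * ε * η ^ 2 + n * |κ| * η) + n * (ε₀ / 4)) * G *
        (2 * Real.pi) := by
        obtain ⟨a, ha⟩ : ∃ a : ℝ, a = n * (-R + ε₀ / 2) := ⟨_, rfl⟩
        obtain ⟨b, hb⟩ : ∃ b : ℝ, b = n * ε * η ^ 2 + n * |κ| * η := ⟨_, rfl⟩
        obtain ⟨d, hd⟩ : ∃ d : ℝ, d = n * (ε₀ / 4) := ⟨_, rfl⟩
        rw [← ha, ← hb, ← hd, Real.exp_add (a + b) d, Real.exp_add a b]
        ring
    _ ≤ Real.exp (n * (-R + ε₀ + ε * η ^ 2 + |κ| * η)) * G * (2 * Real.pi) := by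
        have : Real.exp (n * (-R + ε₀ / 2) + (n * ε * η ^ 2 + n * |κ| * η) + n * (ε₀ / 4)) ≤
            Real.exp (n * (-R + ε₀ + ε * η ^ 2 + |κ| * η)) := by
          rw [Real.exp_le_exp]
          nlinarith [mul_pos hnr0 hε₀]
        gcongr
    _ = _ := by rw [hG]; ring

end Pool.Agent.Q91.SL
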