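import Pool.Agent.Q167.SL.StmB

/-!
# Project SL2 (helper167), job SL-BSH (helper91): shift of the line of integration
-/

set_option autoImplicit false

open MeasureTheory Filter Topology

namespace Pool.Agent.Q91.SL

open Pool.Agent.Q167.SL
open Pool.Agent.TH41.BL (Kf)

/-- a function which is integrable on all the vertical lines of a strip -/
theorem gen_int {F : ℂ → ℂ} {η φ a : ℝ} (ha : 0 < a)
    (hd : ∀ s : ℂ, 0 < s.re → s.re < η → DifferentiableAt ℂ F s)
    (hb : ∀ c c' : ℝ, 0 < c → c ≤ c' → c' < η → ∃ A : ℝ, ∀ s : ℂ, c ≤ s.re → s.re ≤ c' →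
      ‖F s‖ ≤ A * Real.exp (-a * (s.im - φ) ^ 2)) {c : ℝ} (hc : 0 < c) (hc' : c < η) :
    Integrable (fun v : ℝ => F (c + v * Complex.I)) := by
  obtain ⟨A, hA⟩ := hb c c hc le_rfl hc'
  have h1 : Integrable (fun v : ℝ => A * Real.exp (-a * (v - φ) ^ 2)) :=
    ((integrable_exp_neg_mul_sq ha).comp_sub_right φ).const_mul A
  refine h1.mono' ?_ (Eventually.of_forall fun v => ?_)
  · refine Continuous.aestronglyMeasurable (continuous_iff_continuousAt.2 fun v => ?_)
    have h2 : DifferentiableAt ℂ F (c + v * Complex.I) :=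
      hd _ (by simpa using hc) (by simpa using hc')
    have h3 : ContinuousAt (fun v : ℝ => (c : ℂ) + v * Complex.I) v := by fun_prop
    exact ContinuousAt.comp (f := fun v : ℝ => (c : ℂ) + v * Complex.I) (g := F) h2.continuousAt h3
  · have h2 := hA (c + v * Complex.I) (by simp) (by simp)
    simpa using h2

theorem tail_zero {a : ℝ} (ha : 0 < a) (φ : ℝ) :
    Tendsto (fun T : ℝ => Real.exp (-a * (T - φ) ^ 2)) atTop (𝓝 0) := by
  refine Real.tendsto_exp_atBot.comp ?_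
  have h1 : Tendsto (fun T : ℝ => (T - φ) ^ 2) atTop atTop :=
    (tendsto_pow_atTop (by norm_num)).comp (tendsto_atTop_add_const_right _ (-φ) tendsto_id)
  exact h1.const_mul_atTop_of_neg (by linarith)

theorem gen_shift_le {F : ℂ → ℂ} {η φ a : ℝ} (ha : 0 < a)
    (hd : ∀ s : ℂ, 0 < s.re → s.re < η → DifferentiableAt ℂ F s)
    (hb : ∀ c c' : ℝ, 0 < c → c ≤ c' → c' < η → ∃ A : ℝ, ∀ s : ℂ, c ≤ s.re → s.re ≤ c' →
      ‖F s‖ ≤ A * Real.exp (-a * (s.im - φ) ^ 2)) {c c' : ℝ} (hc : 0 < c) (hcc : c ≤ c')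
    (hc' : c' < η) :
    ∫ v : ℝ, F (c + v * Complex.I) = ∫ v : ℝ, F (c' + v * Complex.I) := by
  obtain ⟨A, hA⟩ := hb c c' hc hcc hc'
  have hI := gen_int ha hd hb hc (hcc.trans_lt hc')
  have hI' := gen_int ha hd hb (hc.trans_le hcc) hc'
  have hA0 : 0 ≤ A := by
    have h := (norm_nonneg _).trans (hA (c + φ * Complex.I) (by simp) (by simpa using hcc))
    have e := Real.exp_pos (-a * (((c : ℂ) + φ * Complex.I).im - φ) ^ 2)
    nlinarith
  have hlim := (intervalIntegral_tendsto_integral hI' tendsto_neg_atTop_atBot tendsto_id).sub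
    (intervalIntegral_tendsto_integral hI tendsto_neg_atTop_atBot tendsto_id)
  have hz : Tendsto (fun T : ℝ => (∫ v in (-T)..(id T), F (c' + v * Complex.I)) -
      ∫ v in (-T)..(id T), F (c + v * Complex.I)) atTop (𝓝 0) := by
    refine squeeze_zero_norm' (a := fun T : ℝ => (c' - c) * (A * Real.exp (-a * (T - φ) ^ 2)) +
      (c' - c) * (A * Real.exp (-a * (T - -φ) ^ 2))) ?_ ?_
    · filter_upwards [eventually_ge_atTop (0 : ℝ)] with T hT
      have hrect := Complex.integral_boundary_rect_eq_zero_of_differentiableOn F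
        (⟨c, -T⟩ : ℂ) (⟨c', T⟩ : ℂ) (by
          intro s hs
          rw [Complex.mem_reProdIm] at hs
          simp only at hs
          rw [Set.uIcc_of_le hcc] at hs
          exact (hd s (hc.trans_le hs.1.1) (hs.1.2.trans_lt hc')).differentiableWithinAt)
      simp only [smul_eq_mul] at hrect
      have hh : ∀ e : ℝ, ‖∫ x in c..c', F (x + e * Complex.I)‖ ≤
          (c' - c) * (A * Real.exp (-a * (e - φ) ^ 2)) := by
        intro e
        have h1 := intervalIntegral.norm_integral_le_of_norm_le_const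
          (f := fun x : ℝ => F (x + e * Complex.I)) (a := c) (b := c')
          (C := A * Real.exp (-a * (e - φ) ^ 2)) (by
            intro x hx
            rw [Set.uIoc_of_le hcc] at hx
            have h2 := hA (x + e * Complex.I) (by simpa using hx.1.le) (by simpa using hx.2)
            simpa using h2)
        rw [abs_of_nonneg (by linarith)] at h1
        linarith
      have h1 := hh (-T)
      have h2 := hh T
      have e1 : (-T - φ) ^ 2 = (T - -φ) ^ 2 := by ring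
      rw [e1] at h1
      have h3 : (∫ v in (-T)..(id T), F (c' + v * Complex.I)) -
          (∫ v in (-T)..(id T), F (c + v * Complex.I)) =
          Complex.I * ((∫ x in c..c', F (x + ((-T : ℝ) : ℂ) * Complex.I)) -
            ∫ x in c..c', F (x + (T : ℂ) * Complex.I)) := by
        simp only [id]
        have h4 := congrArg (fun z => Complex.I * z) hrect
        simp only [mul_zero] at h4
        linear_combination (-1 : ℂ) * h4 - ((∫ v in (-T)..T, F (c' + v * Complex.I)) -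
          (∫ v in (-T)..T, F (c + v * Complex.I))) * Complex.I_mul_I * (-1 : ℂ)
      rw [h3, norm_mul, Complex.norm_I, one_mul]
      refine (norm_sub_le _ _).trans ?_
      linarith
    · have h1 := ((tail_zero ha φ).const_mul A).const_mul (c' - c)
      have h2 := ((tail_zero ha (-φ)).const_mul A).const_mul (c' - c)
      have h3 := h1.add h2
      simpa using h3
  have h := tendsto_nhds_unique hlim hz
  exact (sub_eq_zero.1 h).symm

theorem gen_shift {F : ℂ → ℂ} {η φ a : ℝ} (ha : 0 < a)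
    (hd : ∀ s : ℂ, 0 < s.re → s.re < η → DifferentiableAt ℂ F s)
    (hb : ∀ c c' : ℝ, 0 < c → c ≤ c' → c' < η → ∃ A : ℝ, ∀ s : ℂ, c ≤ s.re → s.re ≤ c' →
      ‖F s‖ ≤ A * Real.exp (-a * (s.im - φ) ^ 2)) {c c' : ℝ} (hc : 0 < c) (hcη : c < η)
    (hc' : 0 < c') (hc'η : c' < η) :
    ∫ v : ℝ, F (c + v * Complex.I) = ∫ v : ℝ, F (c' + v * Complex.I) := by
  rcases le_total c c' with h | h
  · exact gen_shift_le ha hd hb hc h hc'η
  · exact (gen_shift_le ha hd hb hc' h hcη).symm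

theorem kf_norm (n : ℕ) (ε κ : ℝ) {x : ℝ} (w : ℝ) (hx : 0 < x) :
    ‖Kf n ε κ (x + w * Complex.I)‖ ≤
      Real.exp (n * ε * x ^ 2 + n * |κ| * x) / x * Real.exp (-(n * ε) * w ^ 2) := by
  unfold Kf
  rw [norm_div, Complex.norm_exp]
  have h1 : (n * ε * ((x : ℂ) + w * Complex.I) ^ 2 - n * κ * (x + w * Complex.I)).re =
      n * ε * (x ^ 2 - w ^ 2) - n * κ * x := by
    have : (n * ε * ((x : ℂ) + w * Complex.I) ^ 2 - n * κ * (x + w * Complex.I)) =
        ((n * ε * (x ^ 2 - w ^ 2) - n * κ * x : ℝ) : ℂ) +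
          ((2 * n * ε * x * w - n * κ * w : ℝ) : ℂ) * Complex.I := by
      push_cast
      linear_combination (n * ε * w ^ 2 : ℂ) * Complex.I_sq
    rw [this, Complex.add_re, Complex.ofReal_re, Complex.re_ofReal_mul, Complex.I_re, mul_zero, add_zero]
  rw [h1]
  have h2 : x ≤ ‖(x : ℂ) + w * Complex.I‖ := by
    have := Complex.abs_re_le_norm ((x : ℂ) + w * Complex.I)
    simp at this
    exact (le_abs_self x).trans this
  have h3 : Real.exp (n * ε * (x ^ 2 - w ^ 2) - n * κ * x) ≤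
      Real.exp (n * ε * x ^ 2 + n * |κ| * x) * Real.exp (-(n * ε) * w ^ 2) := by
    rw [← Real.exp_add, Real.exp_le_exp]
    have h4 : -κ ≤ |κ| := neg_le_abs κ
    have h5 : 0 ≤ (n : ℝ) * x := by positivity
    nlinarith [mul_le_mul_of_nonneg_left h4 h5]
  calc _ ≤ Real.exp (n * ε * (x ^ 2 - w ^ 2) - n * κ * x) / x :=
        div_le_div_of_nonneg_left (Real.exp_pos _).le hx h2
    _ ≤ (Real.exp (n * ε * x ^ 2 + n * |κ| * x) * Real.exp (-(n * ε) * w ^ 2)) / x :=
        div_le_div_of_nonneg_right h3 hx.le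
    _ = _ := by ring

/-- the integrand -/
noncomputable def FF (σ P : ℂ → ℂ) (n : ℕ) (ε κ φ τ : ℝ) (s : ℂ) : ℂ :=
  Complex.exp (n * (σ s * τ + P s)) * Kf n ε κ (s - φ * Complex.I)

theorem FF_line (σ P : ℂ → ℂ) (n : ℕ) (ε κ φ τ c v : ℝ) :
    FF σ P n ε κ φ τ (c + v * Complex.I) =
      Complex.exp (n * (σ (c + v * Complex.I) * τ + P (c + v * Complex.I))) *
        Kf n ε κ (c + (v - φ) * Complex.I) := by
  unfold FF
  congr 2
  ring

theorem FF_diff {η R : ℝ} {σ P t : ℂ → ℂ} (h : SKer η R σ P t) (n : ℕ) (ε κ φ τ : ℝ) {s : ℂ}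
    (h0 : 0 < s.re) (h1 : s.re < η) : DifferentiableAt ℂ (FF σ P n ε κ φ τ) s := by
  have hs : |s.re| < η := by rw [abs_of_pos h0]; exact h1
  have h2 := h.ds s hs
  have h3 := (h.dP s hs).differentiableAt
  have h4 : s - φ * Complex.I ≠ 0 := by
    intro h5
    have := congrArg Complex.re h5
    simp at this
    linarith
  unfold FF Kf
  refine DifferentiableAt.mul ?_ (DifferentiableAt.div ?_ ?_ h4)
  · exact (((h2.mul_const _).add h3).const_mul _).cexp
  · fun_prop
  · fun_prop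

theorem exp_norm {η R : ℝ} {σ P t : ℂ → ℂ} (h : SKer η R σ P t) {c' : ℝ} (hc0 : 0 < c')
    (hc : c' < η) : ∃ M : ℝ, 0 ≤ M ∧ ∀ (n : ℕ) (τ : ℝ) (s : ℂ), |s.re| ≤ c' →
      ‖Complex.exp (n * (σ s * τ + P s))‖ ≤ Real.exp (n * (M * |τ| + M)) := by
  obtain ⟨M, hM⟩ := h.bd c' hc0 hc
  have hM0 : 0 ≤ M := (norm_nonneg _).trans (hM 0 (by simpa using hc0.le)).1
  refine ⟨M, hM0, fun n τ s hs => ?_⟩
  rw [Complex.norm_exp, Real.exp_le_exp]
  have h1 : ((n : ℂ) * (σ s * τ + P s)).re = n * ((σ s).re * τ + (P s).re) := by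
    simp
  rw [h1]
  refine mul_le_mul_of_nonneg_left ?_ (Nat.cast_nonneg n)
  obtain ⟨h2, h3⟩ := hM s hs
  have h4 : (σ s).re * τ ≤ M * |τ| := by
    refine (le_abs_self _).trans ?_
    rw [abs_mul]
    exact mul_le_mul_of_nonneg_right ((Complex.abs_re_le_norm _).trans h2) (abs_nonneg _)
  have h5 : (P s).re ≤ M := (le_abs_self _).trans h3
  linarith

theorem FF_bd {η R : ℝ} {σ P t : ℂ → ℂ} (h : SKer η R σ P t) (n : ℕ) (ε κ φ τ : ℝ) (hε : 0 < ε) :
    ∀ c c' : ℝ, 0 < c → c ≤ c' → c' < η → ∃ A : ℝ, ∀ s : ℂ, c ≤ s.re → s.re ≤ c' →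
      ‖FF σ P n ε κ φ τ s‖ ≤ A * Real.exp (-(n * ε) * (s.im - φ) ^ 2) := by
  intro c c' hc hcc hc'
  obtain ⟨M, hM0, hM⟩ := exp_norm h (hc.trans_le hcc) hc'
  refine ⟨Real.exp (n * (M * |τ| + M)) * (Real.exp (n * ε * c' ^ 2 + n * |κ| * c') / c),
    fun s h1 h2 => ?_⟩
  have hs0 : 0 < s.re := hc.trans_le h1
  unfold FF
  rw [norm_mul]
  have h3 := hM n τ s (by rw [abs_of_pos hs0]; exact h2)
  have h4 := kf_norm n ε κ (s.im - φ) hs0
  have e1 : (s.re : ℂ) + ((s.im - φ : ℝ) : ℂ) * Complex.I = s - φ * Complex.I := by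
    conv_rhs => rw [← Complex.re_add_im s]
    push_cast
    ring
  rw [e1] at h4
  have h5 : Real.exp (n * ε * s.re ^ 2 + n * |κ| * s.re) / s.re ≤
      Real.exp (n * ε * c' ^ 2 + n * |κ| * c') / c := by
    refine div_le_div₀ (Real.exp_pos _).le ?_ hc h1
    rw [Real.exp_le_exp]
    have h6 : s.re ^ 2 ≤ c' ^ 2 := pow_le_pow_left₀ hs0.le h2 2
    have h7 : 0 ≤ (n : ℝ) * ε := by positivity
    have h8 : 0 ≤ (n : ℝ) * |κ| := by positivity
    nlinarith [mul_le_mul_of_nonneg_left h6 h7, mul_le_mul_of_nonneg_left h2 h8]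
  calc _ ≤ Real.exp (n * (M * |τ| + M)) * (Real.exp (n * ε * s.re ^ 2 + n * |κ| * s.re) / s.re *
        Real.exp (-(n * ε) * (s.im - φ) ^ 2)) :=
        mul_le_mul h3 h4 (norm_nonneg _) (Real.exp_pos _).le
    _ ≤ Real.exp (n * (M * |τ| + M)) * (Real.exp (n * ε * c' ^ 2 + n * |κ| * c') / c *
        Real.exp (-(n * ε) * (s.im - φ) ^ 2)) := by gcongr
    _ = _ := by ring

theorem bsh : S_bsh := by
  intro η R σ P t h n ε κ φ τ hn hε
  have ha : 0 < (n : ℝ) * ε := by positivity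
  have hd : ∀ s : ℂ, 0 < s.re → s.re < η → DifferentiableAt ℂ (FF σ P n ε κ φ τ) s :=
    fun s h0 h1 => FF_diff h n ε κ φ τ h0 h1
  have hb := FF_bd h n ε κ φ τ hε
  refine ⟨fun c hc hc' => ?_, fun c c' hc hcη hc' hc'η => ?_⟩
  · have h1 := gen_int ha hd hb hc hc'
    refine h1.congr (Eventually.of_forall fun v => ?_)
    exact FF_line σ P n ε κ φ τ c v
  · have h1 := gen_shift ha hd hb hc hcη hc' hc'η
    unfold tf
    congr 1
    simp only [FF_line] at h1
    exact h1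

end Pool.Agent.Q91.SL
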